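import Pool.Agent.H494Z.CoverDefs
import Pool.Agent.H494Z.Tietze

set_option autoImplicit false

namespace Pool.Agent.Results.MP_b9ebd9_co.ATietze

open Pool.Agent.H494Z.Cover

/-- There is a 3-connected graph whose shortest cycle cover and shortest postman tour have the
same length and which does not have the cycle cover property. -/
theorem result : ∃ (G : SimpleGraph (Fin 12)) (_ : DecidableRel G.Adj),
    ThreeConnected G ∧ SccEqCpp G ∧ ¬ CycleCoverProperty G :=
  ⟨Pool.Agent.H494Z.Tietze.G, inferInstance, Pool.Agent.H494Z.Tietze.main⟩

end Pool.Agent.Results.MP_b9ebd9_co.ATietze
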